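import Pool.Agent.W289.CG.Stm

/-! CG-IRR: irreducibility. -/

set_option autoImplicit false

namespace Pool.Agent.W505.CG

open Pool.Agent.W289.CG Polynomial

lemma natDegree_reverse' {g : ℤ[X]} (h : g.coeff 0 ≠ 0) : g.reverse.natDegree = g.natDegree := by
  rw [reverse_natDegree, natTrailingDegree_eq_zero.mpr (Or.inr h), Nat.sub_zero]

lemma unit_of_reverse {g : ℤ[X]} (h : g.coeff 0 ≠ 0) (hu : IsUnit g.reverse) : IsUnit g := by
  have h1 : g.natDegree = 0 := by
    rw [← natDegree_reverse' h]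
    exact natDegree_eq_zero_of_isUnit hu
  obtain ⟨r, rfl⟩ := natDegree_eq_zero.mp h1
  rwa [reverse_C] at hu

lemma irr_of_reverse {F : ℤ[X]} (h0 : F.coeff 0 ≠ 0) (h : Irreducible F.reverse) :
    Irreducible F := by
  constructor
  · intro hu
    apply h.not_isUnit
    have h1 := natDegree_eq_zero_of_isUnit hu
    obtain ⟨r, rfl⟩ := natDegree_eq_zero.mp h1
    rwa [reverse_C]
  · intro g k hgk
    have h1 : F.coeff 0 = g.coeff 0 * k.coeff 0 := by rw [hgk, mul_coeff_zero]
    have hg : g.coeff 0 ≠ 0 := by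
      intro hh
      rw [hh, zero_mul] at h1
      exact h0 h1
    have hk : k.coeff 0 ≠ 0 := by
      intro hh
      rw [hh, mul_zero] at h1
      exact h0 h1
    rw [hgk, reverse_mul_of_domain] at h
    rcases h.isUnit_or_isUnit rfl with hu | hu
    · exact Or.inl (unit_of_reverse hg hu)
    · exact Or.inr (unit_of_reverse hk hu)

lemma pA_monic {n : ℕ} (a : Fin n → ℤ) : (pA a).Monic := monic_prod_X_sub_C _ _

lemma pA_natDegree {n : ℕ} (a : Fin n → ℤ) : (pA a).natDegree = n := by
  unfold pA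
  rw [natDegree_finsetProd_X_sub_C_eq_card, Finset.card_univ, Fintype.card_fin]

theorem irr : TaskIrr := by
  intro n a L S q hn hq hqL hqL2 hqS hLS
  set A := pA a with hA
  have hAd : A.natDegree = n := pA_natDegree a
  have hAn : A.coeff n = 1 := by
    have := (pA_monic a).coeff_natDegree
    rwa [pA_natDegree] at this
  set F : ℤ[X] := C L * A + C S with hF
  have hL0 : L ≠ 0 := by
    rintro rfl
    exact hqL2 (dvd_zero _)
  have hc : ∀ j, 1 ≤ j → F.coeff j = L * A.coeff j := by
    intro j hj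
    rw [hF, coeff_add, coeff_C_mul, coeff_C_of_ne_zero (by omega), add_zero]
  have hc0 : F.coeff 0 = L * A.coeff 0 + S := by
    rw [hF, coeff_add, coeff_C_mul, coeff_C_zero]
  have hFn : F.coeff n = L := by rw [hc n hn, hAn, mul_one]
  have hFd : F.natDegree = n := by
    refine le_antisymm ?_ (le_natDegree_of_ne_zero (by rw [hFn]; exact hL0))
    refine natDegree_add_le_of_degree_le ?_ ?_
    · exact (natDegree_C_mul_le _ _).trans hAd.le
    · rw [natDegree_C]; omega
  have hq0 : ¬ (q : ℤ) ∣ F.coeff 0 := by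
    rw [hc0]
    intro h
    exact hqS ((Int.dvd_add_right (Dvd.dvd.mul_right hqL _)).mp h)
  have hF0 : F.coeff 0 ≠ 0 := fun h => hq0 (by rw [h]; exact dvd_zero _)
  have hprimr : ∀ r : ℤ, r ∣ L → r ∣ F.coeff 0 → IsUnit r := by
    intro r h1 h2
    rw [hc0] at h2
    exact hLS.isUnit_of_dvd' h1 ((Int.dvd_add_right (Dvd.dvd.mul_right h1 _)).mp h2)
  have hprim : F.IsPrimitive := by
    intro r hr
    rw [C_dvd_iff_dvd_coeff] at hr
    exact hprimr r (hFn ▸ hr n) (hr 0)
  rw [← IsPrimitive.Int.irreducible_iff_irreducible_map_cast hprim]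
  refine irr_of_reverse hF0 ?_
  have hRd : F.reverse.natDegree = n := by rw [natDegree_reverse' hF0, hFd]
  have hRc : ∀ j, j ≤ n → F.reverse.coeff j = F.coeff (n - j) := by
    intro j hj
    rw [coeff_reverse, hFd, revAt_le hj]
  have hqp : Prime (q : ℤ) := Nat.prime_iff_prime_int.mp hq
  refine irreducible_of_eisenstein_criterion (P := Ideal.span {(q : ℤ)})
    ((Ideal.span_singleton_prime hqp.ne_zero).mpr hqp) ?_ ?_ ?_ ?_ ?_
  · rw [leadingCoeff, hRd, hRc n le_rfl, Nat.sub_self, Ideal.mem_span_singleton]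
    exact hq0
  · intro j hj
    have hj' : j < n := by
      rw [← hRd]
      exact lt_of_lt_of_le (by exact_mod_cast (lt_of_lt_of_le hj degree_le_natDegree)) le_rfl
    rw [hRc j hj'.le, hc (n - j) (by omega), Ideal.mem_span_singleton]
    exact Dvd.dvd.mul_right hqL _
  · rw [← natDegree_pos_iff_degree_pos, hRd]
    omega
  · rw [hRc 0 (Nat.zero_le _), Nat.sub_zero, hFn, Ideal.span_singleton_pow,
      Ideal.mem_span_singleton]
    exact hqL2
  · intro r hr
    rw [C_dvd_iff_dvd_coeff] at hr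
    refine hprimr r ?_ ?_
    · have := hr 0
      rwa [hRc 0 (Nat.zero_le _), Nat.sub_zero, hFn] at this
    · have := hr n
      rwa [hRc n le_rfl, Nat.sub_self] at this

end Pool.Agent.W505.CG
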