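import Pool.Agent.W505.CG.Irr

/-! CG-ROOT: primes `q ≡ 1` mod `M` with a further simple root of `A - c`. -/

set_option autoImplicit false

namespace Pool.Agent.W505.CG

open Pool.Agent.W289.CG Polynomial NumberField

/-- Schur: infinitely many primes divide the values of a polynomial -/
lemma schur (g : ℤ[X]) (hg : 0 < g.natDegree) (Q : ℕ) :
    ∃ q : ℕ, q.Prime ∧ Q < q ∧ ∃ x : ℤ, (q : ℤ) ∣ g.eval x := by
  by_cases h0 : g.eval 0 = 0
  · obtain ⟨q, hq, hqp⟩ := Nat.exists_infinite_primes (Q + 1)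
    exact ⟨q, hqp, by omega, 0, by rw [h0]; exact dvd_zero _⟩
  · obtain ⟨c, hc⟩ : ∃ c, c = g.eval 0 := ⟨_, rfl⟩
    rw [← hc] at h0
    have hP0 : (Q.factorial : ℤ) ≠ 0 := by exact_mod_cast Q.factorial_ne_zero
    obtain ⟨m, hm1, hm2⟩ : ∃ m : ℤ, g.eval (c * Q.factorial * m) ≠ c ∧
        g.eval (c * Q.factorial * m) ≠ -c := by
      by_contra hcon
      push Not at hcon
      have hne : (g - C c) * (g + C c) ≠ 0 := by
        refine mul_ne_zero ?_ ?_
        · intro h
          have : (g - C c).natDegree = 0 := by rw [h, natDegree_zero]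
          rw [natDegree_sub_C] at this
          omega
        · intro h
          have : (g + C c).natDegree = 0 := by rw [h, natDegree_zero]
          rw [natDegree_add_C] at this
          omega
      have hinf : (Set.range fun m : ℤ => c * Q.factorial * m).Infinite :=
        Set.infinite_range_of_injective (mul_right_injective₀ (mul_ne_zero h0 hP0))
      apply hinf
      refine (finite_setOfPred_isRoot hne).subset ?_
      rintro _ ⟨m, rfl⟩
      show IsRoot _ _
      rw [IsRoot.def, eval_mul, eval_sub, eval_add, eval_C]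
      by_cases h1 : g.eval (c * Q.factorial * m) = c
      · simp only [h1, sub_self, zero_mul]
      · have h2 := hcon m h1
        simp only [h2]
        ring
    obtain ⟨k, hk⟩ := g.sub_dvd_eval_sub (c * Q.factorial * m) 0
    rw [← hc, sub_zero] at hk
    have hval : g.eval (c * Q.factorial * m) = c * (1 + Q.factorial * (m * k)) := by
      linear_combination hk
    have hw : (1 + (Q.factorial : ℤ) * (m * k)).natAbs ≠ 1 := by
      intro h
      rcases Int.natAbs_eq (1 + (Q.factorial : ℤ) * (m * k)) with h1 | h1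
      · rw [h, Nat.cast_one] at h1
        rw [h1, mul_one] at hval
        exact hm1 hval
      · rw [h, Nat.cast_one] at h1
        rw [h1, mul_neg, mul_one] at hval
        exact hm2 hval
    obtain ⟨q, hq, hqd⟩ := Nat.exists_prime_and_dvd hw
    have hqd' : (q : ℤ) ∣ 1 + (Q.factorial : ℤ) * (m * k) := Int.natCast_dvd.mpr hqd
    refine ⟨q, hq, ?_, _, by rw [hval]; exact Dvd.dvd.mul_left hqd' _⟩
    by_contra hle
    push Not at hle
    have h1 : (q : ℤ) ∣ (Q.factorial : ℤ) := by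
      exact_mod_cast (hq.dvd_factorial).mpr hle
    have h2 : (q : ℤ) ∣ 1 := (Int.dvd_add_left (Dvd.dvd.mul_right h1 _)).mp hqd'
    exact (Nat.prime_iff_prime_int.mp hq).not_isUnit (isUnit_of_dvd_one h2)

/-- degree one primes of large residue characteristic -/
lemma exists_hom (L : Type) [Field L] [NumberField L] (Q : ℕ) :
    ∃ (q : ℕ) (_ : q.Prime) (_ : 𝓞 L →+* ZMod q), Q < q := by
  obtain ⟨α, hα⟩ := Field.exists_primitive_element ℚ L
  have hαZ : IsAlgebraic ℤ α :=
    (IsFractionRing.isAlgebraic_iff ℤ ℚ L).mpr (Algebra.IsAlgebraic.isAlgebraic α)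
  obtain ⟨d, hd, hint⟩ := hαZ.exists_integral_multiple
  set γ : L := d • α with hγ
  have hdL : (d : L) ≠ 0 := by exact_mod_cast hd
  have hαtop : Algebra.adjoin ℚ {α} = ⊤ := by
    rw [← IntermediateField.adjoin_simple_toSubalgebra_of_isAlgebraic
      (Algebra.IsAlgebraic.isAlgebraic α), hα]
    rfl
  have hγtop : Algebra.adjoin ℚ {γ} = ⊤ := by
    rw [eq_top_iff, ← hαtop]
    refine Algebra.adjoin_le ?_
    rw [Set.singleton_subset_iff]
    have h1 : α = (d : ℚ)⁻¹ • γ := by
      rw [hγ, ← Int.cast_smul_eq_zsmul ℚ, smul_smul, inv_mul_cancel₀ (by exact_mod_cast hd),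
        one_smul]
    rw [h1]
    exact Subalgebra.smul_mem _ (Algebra.subset_adjoin (Set.mem_singleton γ)) _
  have hγQ : IsIntegral ℚ γ := hint.tower_top
  set pb := PowerBasis.ofAdjoinEqTop hγQ hγtop with hpb
  have hgen : pb.gen = γ := rfl
  have hgint : IsIntegral ℤ pb.gen := by rw [hgen]; exact hint
  obtain ⟨D, hD⟩ : ∃ D : ℤ, (algebraMap ℤ ℚ) D = Algebra.discr ℚ pb.basis := by
    refine IsIntegrallyClosed.isIntegral_iff.mp (Algebra.discr_isIntegral ℚ fun i => ?_)
    rw [pb.basis_eq_pow]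
    exact hgint.pow _
  have hD0 : D ≠ 0 := by
    rintro rfl
    rw [map_zero] at hD
    exact Algebra.discr_not_zero_of_basis ℚ pb.basis hD.symm
  have hmem : ∀ t : 𝓞 L, (D : L) * (t : L) ∈ Algebra.adjoin ℤ ({γ} : Set L) := by
    intro t
    have h1 := Algebra.discr_mul_isIntegral_mem_adjoin ℚ hgint (RingOfIntegers.isIntegral_coe t)
    rw [← hD, hgen, Algebra.smul_def] at h1
    simp only [algebraMap_int_eq, eq_intCast, map_intCast] at h1
    exact h1
  obtain ⟨q, hq, hqQ, x, hx⟩ := schur (minpoly ℤ γ) (minpoly.natDegree_pos hint)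
    (max Q D.natAbs)
  have hfq : Fact q.Prime := ⟨hq⟩
  have hDq : (D : ZMod q) ≠ 0 := by
    rw [Ne, ZMod.intCast_zmod_eq_zero_iff_dvd, Int.natCast_dvd]
    intro h
    have h1 := Nat.le_of_dvd (Int.natAbs_pos.mpr hD0) h
    have h2 := le_max_right Q D.natAbs
    omega
  have hroot : aeval (x : ZMod q) (minpoly ℤ (Algebra.adjoin.powerBasis' hint).gen) = 0 := by
    rw [← Algebra.adjoin.powerBasis'_minpoly_gen hint]
    have h1 : aeval (x : ZMod q) (minpoly ℤ γ) = (((minpoly ℤ γ).eval x : ℤ) : ZMod q) := by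
      rw [aeval_def, eval₂_eq_eval_map]
      have h2 := eval_intCast_map (Int.castRingHom (ZMod q)) (minpoly ℤ γ) x
      simp only [algebraMap_int_eq]
      exact h2
    rw [h1, ZMod.intCast_zmod_eq_zero_iff_dvd]
    exact hx
  set ψ : Algebra.adjoin ℤ ({γ} : Set L) →ₐ[ℤ] ZMod q :=
    (Algebra.adjoin.powerBasis' hint).lift (x : ZMod q) hroot with hψ
  have hψD : ∀ w : Algebra.adjoin ℤ ({γ} : Set L), ψ ((D : Algebra.adjoin ℤ ({γ} : Set L)) * w) =
      (D : ZMod q) * ψ w := by
    intro w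
    rw [map_mul, map_intCast]
  refine ⟨q, hq, ?_, lt_of_le_of_lt (le_max_left _ _) hqQ⟩
  exact
    { toFun := fun t => ψ ⟨(D : L) * (t : L), hmem t⟩ * (D : ZMod q)⁻¹
      map_one' := by
        have h1 : (⟨(D : L) * ((1 : 𝓞 L) : L), hmem 1⟩ : Algebra.adjoin ℤ ({γ} : Set L)) =
            (D : Algebra.adjoin ℤ ({γ} : Set L)) := by
          apply Subtype.ext
          simp
        rw [h1, map_intCast, mul_inv_cancel₀ hDq]
      map_mul' := fun t t' => by
        have h1 : (D : Algebra.adjoin ℤ ({γ} : Set L)) * ⟨(D : L) * ((t * t' : 𝓞 L) : L),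
            hmem (t * t')⟩ = ⟨(D : L) * (t : L), hmem t⟩ * ⟨(D : L) * (t' : L), hmem t'⟩ := by
          apply Subtype.ext
          push_cast
          ring
        have h2 := congrArg ψ h1
        rw [hψD, map_mul] at h2
        field_simp
        rw [← h2]
        ring
      map_zero' := by
        have h1 : (⟨(D : L) * ((0 : 𝓞 L) : L), hmem 0⟩ : Algebra.adjoin ℤ ({γ} : Set L)) = 0 := by
          apply Subtype.ext
          simp
        rw [h1, map_zero, zero_mul]
      map_add' := fun t t' => by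
        have h1 : (⟨(D : L) * ((t + t' : 𝓞 L) : L), hmem (t + t')⟩ :
            Algebra.adjoin ℤ ({γ} : Set L)) =
            ⟨(D : L) * (t : L), hmem t⟩ + ⟨(D : L) * (t' : L), hmem t'⟩ := by
          apply Subtype.ext
          push_cast
          ring
        rw [h1, map_add, add_mul] }

/-- the real root beyond the zeros of `A` -/
lemma real_root {n k : ℕ} (D : Dat n k) (hn : 1 ≤ n) :
    ∃ β : ℝ, ∏ i, (β - (D.a i : ℝ)) = D.c ∧ ∀ i, (D.a i : ℝ) < β := by
  have hne : Nonempty (Fin n) := ⟨⟨0, by omega⟩⟩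
  obtain ⟨i0, hi0⟩ := Finite.exists_max D.a
  have hc : (0 : ℝ) < D.c := by exact_mod_cast D.hc
  have hcont : Continuous fun x : ℝ => ∏ i, (x - (D.a i : ℝ)) := by fun_prop
  have hf0 : ∏ i, ((D.a i0 : ℝ) - (D.a i : ℝ)) = 0 :=
    Finset.prod_eq_zero (Finset.mem_univ i0) (sub_self _)
  have hf1 : (D.c : ℝ) ≤ ∏ i, ((D.a i0 : ℝ) + (D.c + 1) - (D.a i : ℝ)) := by
    calc (D.c : ℝ) ≤ D.c + 1 := by linarith
      _ = ((D.c : ℝ) + 1) ^ 1 := (pow_one _).symm
      _ ≤ ((D.c : ℝ) + 1) ^ n := pow_le_pow_right₀ (by linarith) hn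
      _ = ∏ _i : Fin n, ((D.c : ℝ) + 1) := by
          rw [Finset.prod_const, Finset.card_univ, Fintype.card_fin]
      _ ≤ _ := by
          refine Finset.prod_le_prod (fun i _ => by linarith) fun i _ => ?_
          have : (D.a i : ℝ) ≤ D.a i0 := by exact_mod_cast hi0 i
          linarith
  have hmem : (D.c : ℝ) ∈ Set.Icc (∏ i, ((D.a i0 : ℝ) - (D.a i : ℝ)))
      (∏ i, ((D.a i0 : ℝ) + (D.c + 1) - (D.a i : ℝ))) := ⟨by rw [hf0]; exact hc.le, hf1⟩
  obtain ⟨β, hβ, hβc⟩ := intermediate_value_Icc (by linarith : (D.a i0 : ℝ) ≤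
    (D.a i0 : ℝ) + (D.c + 1)) hcont.continuousOn hmem
  refine ⟨β, hβc, fun i => ?_⟩
  have h1 : (D.a i : ℝ) ≤ D.a i0 := by exact_mod_cast hi0 i
  refine lt_of_le_of_lt h1 (lt_of_le_of_ne hβ.1 ?_)
  intro h
  have h2 : ∏ i, (β - (D.a i : ℝ)) = D.c := hβc
  rw [← h, hf0] at h2
  linarith

lemma hom_aeval {R S : Type} [CommRing R] [CommRing S] (f : R →+* S) (x : R) (p : ℤ[X]) :
    f (aeval x p) = aeval (f x) p :=
  (aeval_algHom_apply f.toIntAlgHom x p).symm

theorem root : TaskRoot := by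
  intro n k D M Q hn _ hM
  obtain ⟨β, hβ, hβa⟩ := real_root D hn
  set A := pA D.a with hA
  have hne : Nonempty (Fin n) := ⟨⟨0, by omega⟩⟩
  have hAβ : aeval β A = (D.c : ℝ) := by
    rw [hA, pA, map_prod, ← hβ]
    refine Finset.prod_congr rfl fun i _ => ?_
    simp
  have hA'β : 0 < aeval β (derivative A) := by
    rw [hA, pA, derivative_prod_finset, map_sum]
    refine Finset.sum_pos (fun i _ => ?_) Finset.univ_nonempty
    rw [map_mul, map_prod, derivative_X_sub_C, map_one, mul_one]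
    refine Finset.prod_pos fun j _ => ?_
    have h1 : aeval β (X - C (D.a j)) = β - D.a j := by simp
    rw [h1]
    linarith [hβa j]
  have hbβ : ∀ j, β - (D.b j : ℝ) ≠ 0 := by
    intro j
    obtain ⟨i, hi⟩ := D.hlt j
    have h1 : (D.b j : ℝ) < D.a i := by exact_mod_cast hi
    linarith [hβa i]
  -- complex numbers
  obtain ⟨ζ, hζp⟩ : ∃ ζ : ℂ, IsPrimitiveRoot ζ M :=
    ⟨_, Complex.isPrimitiveRoot_exp M (by omega)⟩
  have hζi : IsIntegral ℤ ζ := hζp.isIntegral (by omega)
  have hAβC : aeval (β : ℂ) A = (D.c : ℂ) := by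
    have := hom_aeval Complex.ofRealHom β A
    rw [hAβ] at this
    simpa using this.symm
  have hβi : IsIntegral ℤ (β : ℂ) := by
    refine ⟨A - C D.c, ?_, ?_⟩
    · refine (pA_monic D.a).sub_of_left ?_
      refine lt_of_le_of_lt degree_C_le ?_
      rw [← natDegree_pos_iff_degree_pos, pA_natDegree]
      omega
    · rw [← aeval_def, map_sub, hAβC, aeval_C]
      simp
  set L := IntermediateField.adjoin ℚ ({(β : ℂ), ζ} : Set ℂ) with hL
  have hfd : FiniteDimensional ℚ L := by
    refine IntermediateField.finiteDimensional_adjoin fun x hx => ?_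
    rcases hx with rfl | rfl
    · exact hβi.tower_top
    · exact hζi.tower_top
  have hNF : NumberField L := { to_charZero := inferInstance, to_finiteDimensional := hfd }
  have hinjL : Function.Injective (algebraMap L ℂ) := (algebraMap L ℂ).injective
  have hβL : (β : ℂ) ∈ L := IntermediateField.subset_adjoin ℚ _ (Set.mem_insert _ _)
  have hζL : ζ ∈ L := IntermediateField.subset_adjoin ℚ _
    (Set.mem_insert_of_mem _ (Set.mem_singleton _))
  obtain ⟨B, hB⟩ : ∃ B : 𝓞 L, algebraMap L ℂ (algebraMap (𝓞 L) L B) = β := by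
    refine ⟨⟨⟨β, hβL⟩, (isIntegral_algebraMap_iff hinjL).mp ?_⟩, rfl⟩
    exact hβi
  obtain ⟨Z, hZ⟩ : ∃ Z : 𝓞 L, algebraMap L ℂ (algebraMap (𝓞 L) L Z) = ζ := by
    refine ⟨⟨⟨ζ, hζL⟩, (isIntegral_algebraMap_iff hinjL).mp ?_⟩, rfl⟩
    exact hζi
  set ι : 𝓞 L →+* ℂ := (algebraMap L ℂ).comp (algebraMap (𝓞 L) L) with hι
  have hιinj : Function.Injective ι :=
    hinjL.comp (FaithfulSMul.algebraMap_injective (𝓞 L) L)
  have hιB : ι B = β := hB
  have hιZ : ι Z = ζ := hZ
  have hAB : aeval B A = (D.c : 𝓞 L) := by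
    apply hιinj
    rw [hom_aeval, hιB, hAβC, map_intCast]
  have hcyc : aeval Z (cyclotomic M ℤ) = 0 := by
    apply hιinj
    rw [hom_aeval, hιZ, map_zero]
    have h1 := hζp.isRoot_cyclotomic (by omega)
    rw [IsRoot.def, ← map_cyclotomic_int, eval_map] at h1
    rw [aeval_def]
    exact h1
  set e : 𝓞 L := aeval B (derivative A) * ∏ j, (B - (D.b j : 𝓞 L)) with he
  have he0 : e ≠ 0 := by
    intro h
    have h1 := congrArg ι h
    rw [he, map_mul, map_zero, hom_aeval, hιB, map_prod] at h1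
    rcases mul_eq_zero.mp h1 with h2 | h2
    · have h3 := hom_aeval Complex.ofRealHom β (derivative A)
      have h4 : Complex.ofRealHom β = (β : ℂ) := rfl
      rw [h4, h2] at h3
      exact hA'β.ne' (Complex.ofReal_eq_zero.mp h3)
    · obtain ⟨j, -, h3⟩ := Finset.prod_eq_zero_iff.mp h2
      rw [map_sub, hιB, map_intCast] at h3
      apply hbβ j
      exact_mod_cast h3
  set N := Ideal.absNorm (Ideal.span {e}) with hN
  have hN0 : N ≠ 0 := by
    rw [hN, Ne, Ideal.absNorm_eq_zero_iff, Ideal.span_singleton_eq_bot]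
    exact he0
  obtain ⟨e', he'⟩ : e ∣ (N : 𝓞 L) := Ideal.mem_span_singleton.mp (Ideal.absNorm_mem _)
  obtain ⟨q, hq, φ, hqQ⟩ := exists_hom L (max Q (max N M))
  have hfq : Fact q.Prime := ⟨hq⟩
  have hqQ' : Q < q := lt_of_le_of_lt (le_max_left _ _) hqQ
  have hqN : N < q := lt_of_le_of_lt ((le_max_left _ _).trans (le_max_right _ _)) hqQ
  have hqM : M < q := lt_of_le_of_lt ((le_max_right _ _).trans (le_max_right _ _)) hqQ
  have hφe : φ e ≠ 0 := by
    intro h
    have h1 := congrArg φ he'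
    rw [map_mul, h, zero_mul, map_natCast, ZMod.natCast_eq_zero_iff] at h1
    exact absurd (Nat.le_of_dvd (Nat.pos_of_ne_zero hN0) h1) (by omega)
  rw [he, map_mul, hom_aeval, map_prod] at hφe
  have hφ1 := left_ne_zero_of_mul hφe
  have hφ2 := right_ne_zero_of_mul hφe
  obtain ⟨b, hb⟩ := ZMod.intCast_surjective (φ B)
  have hcast : ∀ p : ℤ[X], ((p.eval b : ℤ) : ZMod q) = aeval (φ B) p := by
    intro p
    rw [← hb]
    have h1 := hom_aeval (Int.castRingHom (ZMod q)) b p
    simpa using h1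
  refine ⟨q, hq, hqQ', ?_, b, ?_, ?_, ?_⟩
  · have h1 : aeval (φ Z) (cyclotomic M ℤ) = 0 := by
      rw [← hom_aeval, hcyc, map_zero]
    have hM0 : (M : ZMod q) ≠ 0 := by
      rw [Ne, ZMod.natCast_eq_zero_iff]
      intro h
      exact absurd (Nat.le_of_dvd (by omega) h) (by omega)
    have : NeZero (M : ZMod q) := ⟨hM0⟩
    have h2 : IsRoot (cyclotomic M (ZMod q)) (φ Z) := by
      rw [IsRoot.def, ← map_cyclotomic_int, eval_map]
      rw [aeval_def] at h1
      exact h1
    rw [isRoot_cyclotomic_iff] at h2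
    exact h2.dvd_of_pow_eq_one _ (ZMod.pow_card_sub_one_eq_one (h2.ne_zero (by omega)))
  · rw [← ZMod.intCast_zmod_eq_zero_iff_dvd, Int.cast_sub, hcast, ← hom_aeval, hAB, map_intCast,
      sub_self]
  · rw [← ZMod.intCast_zmod_eq_zero_iff_dvd, hcast]
    exact hφ1
  · intro j
    rw [← ZMod.intCast_zmod_eq_zero_iff_dvd, Int.cast_sub, hb]
    have h1 := Finset.prod_ne_zero_iff.mp hφ2 j (Finset.mem_univ j)
    rwa [map_sub, map_intCast] at h1

end Pool.Agent.W505.CG
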