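import Pool.Agent.W289.CG.Stm

/-! CG-ST: choice of `s` and `t`. -/

set_option autoImplicit false

namespace Pool.Agent.W505.CG

open Pool.Agent.W289.CG

theorem st : TaskSt := by
  intro M s₀ t₀ x y hM hs hx hxy B
  obtain ⟨k, rfl⟩ := Int.eq_ofNat_of_zero_le hM.le
  have hk : k ≠ 0 := by
    rintro rfl
    simp at hM
  have : NeZero k := ⟨hk⟩
  have hu : IsUnit ((s₀ : ℤ) : ZMod k) := (ZMod.coe_int_isUnit_iff_isCoprime s₀ k).mpr hs.symm
  have hyx : 0 < y - x := by linarith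
  obtain ⟨p, hp, hpp, hpe⟩ := Nat.forall_exists_prime_gt_and_eq_mod hu
    (max B.toNat (max k ⌈3 * (k : ℝ) / (y - x)⌉₊))
  have h1 : B.toNat < p := lt_of_le_of_lt (le_max_left _ _) hp
  have h2 : k < p := lt_of_le_of_lt ((le_max_left _ _).trans (le_max_right _ _)) hp
  have h3 : ⌈3 * (k : ℝ) / (y - x)⌉₊ < p :=
    lt_of_le_of_lt ((le_max_right _ _).trans (le_max_right _ _)) hp
  have h4 : 3 * (k : ℝ) < (y - x) * p := by
    have h5 : 3 * (k : ℝ) / (y - x) < p := by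
      refine (Nat.le_ceil _).trans_lt ?_
      exact_mod_cast h3
    rw [div_lt_iff₀ hyx] at h5
    linarith
  have hkR : (0 : ℝ) < k := by exact_mod_cast Nat.pos_of_ne_zero hk
  set t1 : ℤ := t₀ + k * (⌊(x * p - t₀) / k⌋ + 1) with ht1
  have ht1a : x * p < t1 := by
    have := Int.lt_floor_add_one ((x * p - t₀) / k)
    rw [div_lt_iff₀ hkR] at this
    rw [ht1]
    push_cast
    linarith
  have ht1b : (t1 : ℝ) ≤ x * p + k := by
    have := Int.floor_le ((x * p - t₀) / k)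
    rw [le_div_iff₀ hkR] at this
    rw [ht1]
    push_cast
    linarith
  have hdvd : ((k : ℕ) : ℤ) ∣ (p : ℤ) - s₀ := by
    rw [← ZMod.intCast_zmod_eq_zero_iff_dvd, Int.cast_sub, Int.cast_natCast, hpe, sub_self]
  have hcop : ∀ t : ℤ, ¬ (p : ℤ) ∣ t → IsCoprime (p : ℤ) t := fun t ht =>
    (Irreducible.coprime_iff_not_dvd (Nat.prime_iff_prime_int.mp hpp).irreducible).mpr ht
  by_cases hd : (p : ℤ) ∣ t1
  · have hd2 : ¬ (p : ℤ) ∣ t1 + k := by
      intro h
      have h5 : (p : ℤ) ∣ (k : ℤ) := (Int.dvd_add_right hd).mp h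
      have h6 : p ∣ k := by exact_mod_cast h5
      exact absurd (Nat.le_of_dvd (Nat.pos_of_ne_zero hk) h6) (by omega)
    refine ⟨p, t1 + k, hdvd, ⟨⌊(x * p - t₀) / k⌋ + 1 + 1, by rw [ht1]; ring⟩, by omega,
      hcop _ hd2, ?_, ?_⟩
    · push_cast
      linarith
    · push_cast
      linarith
  · refine ⟨p, t1, hdvd, ⟨⌊(x * p - t₀) / k⌋ + 1, by rw [ht1]; ring⟩, by omega,
      hcop _ hd, ?_, ?_⟩
    · exact_mod_cast ht1a
    · push_cast
      linarith

end Pool.Agent.W505.CG
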